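import Pool.Agent.Helper74.LE.GoalsH
import Pool.Agent.Helper8.RA.RP

/-!
# Project LE (MP_cc6379_al): packet LE-DI2. Unequal weights in a dihedral group.
-/

set_option autoImplicit false

open LaurentPolynomial Pool.Agent.Helper15.RA Pool.Agent.Helper45.AM Pool.Agent.Helper15.AM
  Pool.Agent.Helper74.LL Pool.Agent.Helper74.LE

noncomputable section

namespace Pool.Agent.Helper44.LE.DI2

/-! ## The dihedral group -/

section dih

variable {I W H : Type} [Group W] [Ring H] [Algebra ℤ[T;T⁻¹] H]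

/-- the last letter of an alternating word -/
theorem al_succ {M : CoxeterMatrix I} (cs : CoxeterSystem M W) : ∀ (k : ℕ) (i j : I),
    al cs i j (k + 1) = al cs i j k * (if Even k then cs.simple i else cs.simple j)
  | 0, i, j => by
    change cs.simple i * 1 = 1 * _
    simp
  | k + 1, i, j => by
    have h := al_succ cs k j i
    change cs.simple i * al cs j i (k + 1) = cs.simple i * al cs j i k * _
    rw [h, mul_assoc]
    congr 1
    congr 1
    rcases Nat.even_or_odd k with hk | hk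
    · rw [if_pos hk, if_neg (by rw [Nat.even_add_one]; exact not_not.2 hk)]
    · rw [if_neg (Nat.not_even_iff_odd.2 hk), if_pos (by rw [Nat.even_add_one]; exact Nat.not_even_iff_odd.2 hk)]

/-- The coordinates of `c_e` for unequal parameters. -/
theorem coords (X : Dih I W H) (hab : X.b < X.a) (hm7 : 7 ≤ X.m) :
    (∃ n, X.m = 2 * n ∧ 4 ≤ n) ∧
    DegLE ((X.a : ℤ) - X.A1) (X.D.t.repr (X.D.c X.e) (X.p 2)) ∧
    DegLE ((X.a : ℤ) - X.A1) (X.D.t.repr (X.D.c X.e) (X.q 2)) ∧
    DegLE ((X.a : ℤ) - X.A1) (X.D.t.repr (X.D.c X.e) (X.q 3)) ∧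
    DegLE (2 * (X.a : ℤ) - X.b - X.A1) (X.D.t.repr (X.D.c X.e) (X.p 3)) := by
  have hm3 := X.hm
  have hM : X.M X.i X.j ≠ 0 := by omega
  have hM' : X.M X.j X.i = X.M X.i X.j := X.M.symmetric X.j X.i
  obtain ⟨len, braid, words, inj, -, -, wts⟩ := g_rw I W X.M X.cs X.i X.j X.ne X.all hM
  obtain ⟨len', braid', words', inj', -, -, wts'⟩ := g_rw I W X.M X.cs X.j X.i X.ne.symm
    (fun k ↦ (X.all k).symm) (by rw [hM']; exact hM)
  rw [hM'] at len' words' inj' wts' braid'
  obtain ⟨L1, Ladd, Llt, Lev⟩ := wts X.L X.wt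
  obtain ⟨-, Ladd', -, -⟩ := wts' X.L X.wt
  obtain ⟨⟨u1, u2⟩, -⟩ := g_ru I W H X hab
  obtain ⟨-, -, -, -, -, hw0, -, -⟩ := g_rt I W H X
  obtain ⟨-, -, -, hc1, hc2, -, -, hcone, hcs, hcc⟩ := g_h2 I W H X.M X.cs X.L X.wt X.D
  have hne : X.L (X.cs.simple X.i) ≠ X.L (X.cs.simple X.j) := by
    have h : X.L (X.cs.simple X.j) < X.L (X.cs.simple X.i) := hab
    omega
  obtain ⟨n, hn⟩ := Lev hne
  have hmn : X.m = 2 * n := by
    show X.M X.i X.j = 2 * n
    omega
  have hMn : X.M X.i X.j = 2 * n := hmn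
  have hn4 : 4 ≤ n := by omega
  -- multiplication by `c_j`
  have mulcj : ∀ Z : H, X.cj * Z = X.D.t (X.cs.simple X.j) * Z +
      (T (-(X.b : ℤ)) : ℤ[T;T⁻¹]) • Z := by
    intro Z
    show X.D.c (X.cs.simple X.j) * Z = _
    rw [hcs X.j, add_mul, smul_mul_assoc, one_mul]
    rfl
  -- weights
  have hL : ∀ r, 2 * r ≤ 2 * n → X.L (X.q (2 * r)) = r * (X.a + X.b) := by
    intro r
    induction r with
    | zero =>
      intro _
      rw [zero_mul]
      exact L1
    | succ r ih =>
      intro hr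
      have h3 : X.L (X.q (2 * r + 1 + 1)) = X.b + X.L (X.p (2 * r + 1)) :=
        Ladd' (2 * r + 1) (by omega)
      have h4 : X.L (X.p (2 * r + 1)) = X.a + X.L (X.q (2 * r)) := Ladd (2 * r) (by omega)
      have h5 : 2 * (r + 1) = 2 * r + 1 + 1 := by ring
      rw [h5, h3, h4, ih (by omega)]
      ring
  have hLp : ∀ r, 2 * r ≤ 2 * n → X.L (X.p (2 * r)) = r * (X.a + X.b) := by
    intro r hr
    rcases r with _ | r
    · rw [zero_mul]
      exact L1
    · have h3 : X.L (X.p (2 * r + 1 + 1)) = X.a + X.L (X.q (2 * r + 1)) :=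
        Ladd (2 * r + 1) (by omega)
      have h4 : X.L (X.q (2 * r + 1 + 1)) = X.b + X.L (X.p (2 * r + 1)) :=
        Ladd' (2 * r + 1) (by omega)
      have h6 : X.L (X.p (2 * r + 1)) = X.a + X.L (X.q (2 * r)) := Ladd (2 * r) (by omega)
      have h8 := hL r (by omega)
      -- `L(q (2r+1)) = b + L(p (2r))`, by induction through `h8`
      clear h4
      induction r with
      | zero =>
        have h9 : X.L (X.q (2 * 0 + 1)) = X.b + X.L (X.p (2 * 0)) := Ladd' 0 (by omega)
        have h10 : X.L (X.p (2 * 0)) = 0 := L1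
        have h5 : 2 * (0 + 1) = 2 * 0 + 1 + 1 := by ring
        rw [h5, h3, h9, h10]
        ring
      | succ r ih =>
        have h9 : X.L (X.q (2 * (r + 1) + 1)) = X.b + X.L (X.p (2 * (r + 1))) :=
          Ladd' (2 * (r + 1)) (by omega)
        have h10 := ih (by omega) (Ladd (2 * r + 1) (by omega)) (Ladd (2 * r) (by omega))
          (hL r (by omega))
        have h5 : 2 * (r + 1 + 1) = 2 * (r + 1) + 1 + 1 := by ring
        rw [h5, h3, h9, h10]
        ring
  have hLq1 : ∀ r, 2 * r + 1 ≤ 2 * n → X.L (X.q (2 * r + 1)) = X.b + r * (X.a + X.b) := by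
    intro r hr
    have h9 : X.L (X.q (2 * r + 1)) = X.b + X.L (X.p (2 * r)) := Ladd' (2 * r) (by omega)
    rw [h9, hLp r (by omega)]
  have hLw : X.L X.w0 = n * (X.a + X.b) := by
    have h : X.w0 = X.p (2 * n) := by
      show al X.cs X.i X.j X.m = al X.cs X.i X.j (2 * n)
      rw [hmn]
    rw [h, hLp n le_rfl]
  -- the two relations
  have step : ∀ y, X.cs.length (X.cs.simple X.j * y) = X.cs.length y + 1 →
      X.D.t.repr (X.D.c X.e) y = T ((X.L (X.cs.simple X.j * y) : ℤ) - X.L X.w0) -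
        T (X.b : ℤ) * X.D.t.repr (X.D.c X.e) (X.cs.simple X.j * y) := by
    intro y hy
    have h3 : X.D.t.repr (X.cj * X.D.c X.e) (X.cs.simple X.j * y) =
        X.D.t.repr (X.D.c X.w0) (X.cs.simple X.j * y) := by rw [u2]
    rw [mulcj, map_add, map_smul, Finsupp.add_apply, Finsupp.smul_apply, smul_eq_mul,
      (Pool.Agent.Helper8.RA.repr_mul g_h1 X.D.toHecke0 X.j y hy (X.D.c X.e)).2, hw0] at h3
    have hxi : xi (X.L (X.cs.simple X.j)) = T (X.b : ℤ) - T (-(X.b : ℤ)) := rfl
    rw [hxi] at h3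
    rw [← h3]
    ring
  have Grec : ∀ k, k < X.m → X.D.t.repr (X.D.c X.e) (X.q k) =
      T (-(X.a : ℤ)) * X.D.t.repr (X.D.c X.e) (X.p (k + 1)) := by
    intro k hk
    have hkM : k < X.M X.i X.j := hk
    have hlen : X.cs.length (X.cs.simple X.i * X.q k) = X.cs.length (X.q k) + 1 := by
      have h3 : X.cs.length (X.p (k + 1)) = k + 1 := len (k + 1) (by omega)
      have h4 : X.cs.length (X.q k) = k := len' k (by omega)
      rw [h4]
      exact h3
    exact Pool.Agent.Helper8.RA.repr_eig g_h1 g_h2 X.wt X.D X.i (X.q k) hlen (X.D.c X.e) u1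
  have Frec : ∀ k, k + 1 < X.m → X.D.t.repr (X.D.c X.e) (X.p k) =
      T ((X.L (X.q (k + 1)) : ℤ) - X.L X.w0) -
        T (X.b : ℤ) * (T (-(X.a : ℤ)) * X.D.t.repr (X.D.c X.e) (X.p (k + 2))) := by
    intro k hk
    have hkM : k + 1 < X.M X.i X.j := hk
    have hlen : X.cs.length (X.cs.simple X.j * X.p k) = X.cs.length (X.p k) + 1 := by
      have h3 : X.cs.length (X.q (k + 1)) = k + 1 := len' (k + 1) (by omega)
      have h4 : X.cs.length (X.p k) = k := len k (by omega)
      rw [h4]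
      exact h3
    have h5 := step (X.p k) hlen
    have h6 : X.cs.simple X.j * X.p k = X.q (k + 1) := rfl
    rw [h6, Grec (k + 1) hk] at h5
    exact h5
  have habz : (X.b : ℤ) < X.a := by exact_mod_cast hab
  have hbz : (0 : ℤ) ≤ X.b := Int.natCast_nonneg _
  have Fm : X.D.t.repr (X.D.c X.e) (X.p X.m) = 0 := by
    by_contra hcon
    have h3 : X.cs.length (X.p X.m) = X.m := len X.m (le_refl _)
    have h4 : X.cs.length X.e = X.m - 1 := len (X.m - 1) (by
      show X.m - 1 ≤ X.m
      omega)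
    rcases hc2 X.e (X.p X.m) hcon with h5 | h5
    · rw [h5, h4] at h3
      omega
    · omega
  -- odd places
  have odd : ∀ r k : ℕ, k + 1 + 2 * r = X.m →
      DegLE (-((r : ℤ) * ((X.a : ℤ) - X.b))) (X.D.t.repr (X.D.c X.e) (X.p k)) := by
    intro r
    induction r with
    | zero =>
      intro k hk
      have h3 : X.p k = X.e := by
        show al X.cs X.i X.j k = al X.cs X.i X.j (X.m - 1)
        congr 1
        omega
      rw [h3, hc1]
      exact DegLE.one (by simp)
    | succ r ih =>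
      intro k hk
      rw [Frec k (by omega)]
      have h4 := ih (k + 2) (by omega)
      have h5 : k + 1 = 2 * (n - (r + 1)) := by omega
      have h6 : X.L (X.q (k + 1)) = (n - (r + 1)) * (X.a + X.b) := by
        rw [h5]
        exact hL _ (by omega)
      have h7 : ((n - (r + 1) : ℕ) : ℤ) = (n : ℤ) - (r + 1) := by
        have : r + 1 ≤ n := by omega
        push_cast [Nat.cast_sub this]
        ring
      have hrz : (0 : ℤ) ≤ r := Int.natCast_nonneg _
      refine DegLE.sub (DegLE.T_le ?_)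
        ((DegLE.T_le le_rfl).mul_le ((DegLE.T_le le_rfl).mul_le h4 le_rfl) ?_)
      · rw [h6, hLw]
        push_cast
        rw [h7]
        nlinarith
      · push_cast
        nlinarith
  have even : ∀ r k : ℕ, k + 2 + 2 * r = X.m →
      DegLE (-(X.a : ℤ) - (r : ℤ) * ((X.a : ℤ) - X.b)) (X.D.t.repr (X.D.c X.e) (X.p k)) := by
    intro r
    induction r with
    | zero =>
      intro k hk
      have h3 : X.p (k + 2) = X.p X.m := by
        congr 1
      rw [Frec k (by omega), h3, Fm, mul_zero, mul_zero, sub_zero]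
      have h5 : k + 1 = 2 * (n - 1) + 1 := by omega
      have h6 : X.L (X.q (k + 1)) = X.b + (n - 1) * (X.a + X.b) := by
        rw [h5]
        exact hLq1 _ (by omega)
      have h7 : ((n - 1 : ℕ) : ℤ) = (n : ℤ) - 1 := by
        have : 1 ≤ n := by omega
        push_cast [Nat.cast_sub this]
        ring
      refine DegLE.T_le ?_
      rw [h6, hLw]
      push_cast
      rw [h7]
      nlinarith
    | succ r ih =>
      intro k hk
      rw [Frec k (by omega)]
      have h4 := ih (k + 2) (by omega)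
      have h5 : k + 1 = 2 * (n - 1 - (r + 1)) + 1 := by omega
      have h6 : X.L (X.q (k + 1)) = X.b + (n - 1 - (r + 1)) * (X.a + X.b) := by
        rw [h5]
        exact hLq1 _ (by omega)
      have h7 : ((n - 1 - (r + 1) : ℕ) : ℤ) = (n : ℤ) - 1 - (r + 1) := by
        omega
      have hrz : (0 : ℤ) ≤ r := Int.natCast_nonneg _
      refine DegLE.sub (DegLE.T_le ?_)
        ((DegLE.T_le le_rfl).mul_le ((DegLE.T_le le_rfl).mul_le h4 le_rfl) ?_)
      · rw [h6, hLw]
        push_cast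
        rw [h7]
        nlinarith
      · push_cast
        nlinarith
  have hA1 : (X.A1 : ℤ) = X.a + ((n : ℤ) - 1) * ((X.a : ℤ) - X.b) := by
    have h14 : X.A1 = X.a + (n - 1) * (X.a - X.b) := by
      show X.a + (X.m / 2 - 1) * (X.a - X.b) = _
      rw [hmn]
      have : 2 * n / 2 - 1 = n - 1 := by omega
      rw [this]
    have h15 : ((X.a - X.b : ℕ) : ℤ) = (X.a : ℤ) - X.b := Nat.cast_sub hab.le
    have h16 : ((n - 1 : ℕ) : ℤ) = (n : ℤ) - 1 := by omega
    rw [h14, Nat.cast_add, Nat.cast_mul, h15, h16]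
  have c2 : ((n - 2 : ℕ) : ℤ) = (n : ℤ) - 2 := by omega
  have c3 : ((n - 3 : ℕ) : ℤ) = (n : ℤ) - 3 := by omega
  refine ⟨⟨n, hmn, hn4⟩, ?_, ?_, ?_, ?_⟩
  · have h := even (n - 2) 2 (by omega)
    rw [c2] at h
    refine h.mono ?_
    rw [hA1]
    nlinarith
  · rw [Grec 2 (by omega)]
    have h := odd (n - 2) 3 (by omega)
    rw [c2] at h
    refine (DegLE.T_le le_rfl).mul_le h ?_
    rw [hA1]
    nlinarith
  · rw [Grec 3 (by omega)]
    have h := even (n - 3) 4 (by omega)
    rw [c3] at h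
    refine (DegLE.T_le le_rfl).mul_le h ?_
    rw [hA1]
    nlinarith
  · have h := odd (n - 2) 3 (by omega)
    rw [c2] at h
    refine h.mono ?_
    rw [hA1]
    nlinarith

end dih

/-! ## Transfer -/

section transfer

variable {S W H : Type} [Group W] [Ring H] [Algebra ℤ[T;T⁻¹] H]

theorem iotaE_al {M : CoxeterMatrix S} (cs : CoxeterSystem M W) {I' : Type} (e : I' → S)
    (he : Function.Injective e) : ∀ (k : ℕ) (i j : I'),
    iotaE cs e he (al (subE M e he).toCoxeterSystem i j k) = al cs (e i) (e j) k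
  | 0, i, j => map_one _
  | k + 1, i, j => by
    change iotaE cs e he ((subE M e he).toCoxeterSystem.simple i *
      al (subE M e he).toCoxeterSystem j i k) = cs.simple (e i) * al cs (e j) (e i) k
    rw [map_mul, Pool.Agent.Helper56.AM.iotaE_simple, iotaE_al cs e he k j i]

/-- The dihedral group `W_ij` with its Hecke algebra, inside `W`, `H`. -/
theorem transfer (X : TE S W H) (i j : S) (hij : i ≠ j) (h3 : 3 ≤ X.M i j) :
    ∃ (I' W' H' : Type) (_ : Group W') (_ : Ring H') (_ : Algebra ℤ[T;T⁻¹] H')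
      (Y : Dih I' W' H') (ι : W' →* W), Function.Injective ι ∧
      (∀ x, x ∈ par X.cs {i, j} ↔ ∃ g, ι g = x) ∧
      (∀ k, ι (Y.p k) = al X.cs i j k) ∧ (∀ k, ι (Y.q k) = al X.cs j i k) ∧
      Y.m = X.M i j ∧ (∀ g, Y.L g = X.L (ι g)) ∧
      ι (Y.cs.simple Y.i) = X.cs.simple i ∧ ι (Y.cs.simple Y.j) = X.cs.simple j ∧
      (∀ g g' l, X.h (ι g) (ι g') (ι l) = Y.h g g' l) ∧
      ∀ g y, X.D.t.repr (X.D.c (ι g)) (ι y) = Y.D.t.repr (Y.D.c g) y := by
  classical
  let e : ({i, j} : Set S) → S := Subtype.val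
  have he : Function.Injective e := Subtype.val_injective
  have hrange : Set.range e = ({i, j} : Set S) := Subtype.range_val
  obtain ⟨Hv, _, _, Dv, jj, hj, jt, jc⟩ := k_vb S W H X.toBase ({i, j} : Set S) e he
  obtain ⟨n1, n2, n3, n4⟩ := k_gps S W X.M X.cs ({i, j} : Set S) e he
  rw [hrange] at n3
  have wt := n4 X.L X.wt
  obtain ⟨-, ⟨hv, hhv⟩, -, -, -⟩ := g_h3 _ _ _ (subE X.M e he) (subE X.M e he).toCoxeterSystem
    (fun g => X.L (iotaE X.cs e he g)) wt Dv
  let ii : ({i, j} : Set S) := ⟨i, Set.mem_insert i {j}⟩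
  let ij : ({i, j} : Set S) := ⟨j, Set.mem_insert_of_mem i (Set.mem_singleton j)⟩
  let Y : Dih ({i, j} : Set S) (subE X.M e he).Group Hv :=
    { M := subE X.M e he
      cs := (subE X.M e he).toCoxeterSystem
      L := fun g => X.L (iotaE X.cs e he g)
      wt := wt
      D := Dv
      h := hv
      isH := hhv
      i := ii
      j := ij
      ne := fun h => hij (congrArg Subtype.val h)
      all := fun k => by
        rcases k.2 with h | h
        · exact Or.inl (Subtype.ext h)
        · exact Or.inr (Subtype.ext h)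
      hm := h3 }
  have hmap : ∀ g g', X.h ((iotaE X.cs e he) g) ((iotaE X.cs e he) g') =
      (hv g g').mapDomain (iotaE X.cs e he) := by
    intro g g'
    rw [← Pool.Agent.Helper33.RA.isH_repr X.isH X.b X.hb, ← jc, ← jc, ← map_mul, hhv g g']
    rw [Finsupp.sum, map_sum]
    have h1 : ∑ x ∈ (hv g g').support, jj ((hv g g') x • Dv.c x) =
        Finsupp.linearCombination ℤ[T;T⁻¹] X.b ((hv g g').mapDomain (iotaE X.cs e he)) := by
      rw [Finsupp.linearCombination_mapDomain, Finsupp.linearCombination_apply, Finsupp.sum]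
      refine Finset.sum_congr rfl fun x _ => ?_
      rw [map_smul, jc, Function.comp_apply, X.hb]
    rw [h1, Module.Basis.repr_linearCombination]
  have hval : ∀ g g' l, X.h ((iotaE X.cs e he) g) ((iotaE X.cs e he) g')
      ((iotaE X.cs e he) l) = hv g g' l := by
    intro g g' l
    rw [hmap, Finsupp.mapDomain_apply n2]
  have htm : ∀ Z : Hv, X.D.t.repr (jj Z) = (Dv.t.repr Z).mapDomain (iotaE X.cs e he) := by
    intro Z
    have h1 : jj Z = Finsupp.linearCombination ℤ[T;T⁻¹] X.D.t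
        ((Dv.t.repr Z).mapDomain (iotaE X.cs e he)) := by
      rw [Finsupp.linearCombination_mapDomain, Finsupp.linearCombination_apply]
      conv_lhs => rw [← Dv.t.linearCombination_repr Z, Finsupp.linearCombination_apply]
      rw [Finsupp.sum, map_sum, Finsupp.sum]
      refine Finset.sum_congr rfl fun x _ => ?_
      rw [map_smul, jt, Function.comp_apply]
    rw [h1, Module.Basis.repr_linearCombination]
  refine ⟨({i, j} : Set S), (subE X.M e he).Group, Hv, inferInstance, inferInstance,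
    inferInstance, Y, iotaE X.cs e he, n2, ?_, ?_, ?_, rfl, fun g => rfl, ?_, ?_, hval, ?_⟩
  · intro x
    rw [← n3]
    exact Iff.rfl
  · intro k
    exact iotaE_al X.cs e he k ii ij
  · intro k
    exact iotaE_al X.cs e he k ij ii
  · exact Pool.Agent.Helper56.AM.iotaE_simple X.cs e he ii
  · exact Pool.Agent.Helper56.AM.iotaE_simple X.cs e he ij
  · intro g y
    rw [← jc, htm, Finsupp.mapDomain_apply n2]

end transfer

theorem t (_hKD1 : KD1) : Pool.Agent.Helper74.LE.DI2 := by
  intro S W H _ _ _ X i j hij hM2 hl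
  have hM7 : 7 ≤ X.M i j := X.big i j hij hM2
  obtain ⟨I', W', H', _, _, _, Y, ι, inj, rng, hp, hq, hm, hL, hsi, hsj, hh, hr⟩ :=
    transfer X i j hij (by omega)
  have ha : Y.a = X.l i := by
    show Y.L (Y.cs.simple Y.i) = X.L (X.cs.simple i)
    rw [hL, hsi]
  have hb : Y.b = X.l j := by
    show Y.L (Y.cs.simple Y.j) = X.L (X.cs.simple j)
    rw [hL, hsj]
  have hab : Y.b < Y.a := by rw [ha, hb]; exact hl
  obtain ⟨⟨n, hmn, hn4⟩, c1, c2, c3, c4⟩ := coords Y hab (by rw [hm]; exact hM7)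
  obtain ⟨-, -, -, -, v1, v1', vmid, vj⟩ := g_ru I' W' H' Y hab
  obtain ⟨r1, -, r3⟩ := g_rv I' W' H' Y hab
  have pg := X.pg {i, j} (Or.inr ⟨i, j, rfl⟩)
  have hw0 : ι Y.w0 = w0 X.cs i j := by
    show ι (Y.p Y.m) = al X.cs i j (X.M i j)
    rw [hp, hm]
  have he : ι Y.e = w0 X.cs i j * X.cs.simple j := by
    have h1 : Y.m - 1 + 1 = X.M i j := by omega
    have h2 := al_succ X.cs (Y.m - 1) i j
    have h3 : ¬ Even (Y.m - 1) := by
      rw [Nat.not_even_iff_odd]
      exact ⟨n - 1, by omega⟩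
    rw [if_neg h3, h1] at h2
    show ι (Y.p (Y.m - 1)) = al X.cs i j (X.M i j) * X.cs.simple j
    rw [hp, h2, mul_assoc, X.cs.simple_mul_simple_self, mul_one]
  have hmem : ∀ g, ι g ∈ par X.cs {i, j} := fun g => (rng _).2 ⟨g, rfl⟩
  -- the value of `α` from degree bounds
  have low : ∀ (g : W') (d : ℕ), (∀ x y, DegLE d (Y.h x y g)) → X.α (ι g) ≤ d := by
    intro g d hd
    obtain ⟨x, hx, y, hy, hxy⟩ := pg.low (ι g) (hmem g)
    obtain ⟨x', rfl⟩ := (rng x).1 hx
    obtain ⟨y', rfl⟩ := (rng y).1 hy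
    rw [hh] at hxy
    by_contra hcon
    push Not at hcon
    exact hxy (hd x' y' (X.α (ι g)) (by exact_mod_cast hcon))
  have hαe : X.α (w0 X.cs i j * X.cs.simple j) = Y.A1 := by
    rw [← he]
    apply le_antisymm
    · exact low Y.e Y.A1 r1
    · have h1 := pg.deg (ι Y.e) (hmem _) (ι Y.e) (hmem _) (ι Y.e) (hmem _)
      rw [hh] at h1
      by_contra hcon
      push Not at hcon
      exact r3 (h1 Y.A1 (by exact_mod_cast hcon))
  have hA1 : (Y.A1 : ℤ) = Y.a + ((n : ℤ) - 1) * ((Y.a : ℤ) - Y.b) := by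
    have h14 : Y.A1 = Y.a + (n - 1) * (Y.a - Y.b) := by
      show Y.a + (Y.m / 2 - 1) * (Y.a - Y.b) = _
      rw [hmn]
      have : 2 * n / 2 - 1 = n - 1 := by omega
      rw [this]
    have h15 : ((Y.a - Y.b : ℕ) : ℤ) = (Y.a : ℤ) - Y.b := Nat.cast_sub hab.le
    have h16 : ((n - 1 : ℕ) : ℤ) = (n : ℤ) - 1 := by omega
    rw [h14, Nat.cast_add, Nat.cast_mul, h15, h16]
  have habz : (Y.b : ℤ) < Y.a := by exact_mod_cast hab
  refine ⟨?_, ?_, ?_, ?_⟩
  · intro g hg hg1 hg2
    obtain ⟨g', rfl⟩ := (rng g).1 hg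
    rw [← ha]
    have k1 : g' ≠ Y.w0 := fun h => hg1 (by rw [h, hw0])
    have k2 : g' ≠ Y.e := fun h => hg2 (by rw [h, he])
    by_cases h1 : g' = 1
    · subst h1
      refine low 1 Y.a fun x y => ?_
      by_cases h0 : Y.h x y 1 = 0
      · rw [h0]
        exact DegLE.zero _
      · obtain ⟨rfl, rfl⟩ := v1 x y h0
        exact v1'.mono (Int.natCast_nonneg _)
    · by_cases h2 : g' = Y.cs.simple Y.j
      · subst h2
        exact low _ Y.a fun x y => ((vj x y).1).mono (by exact_mod_cast hab.le)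
      · exact low g' Y.a fun x y => (vmid x y g' ⟨h1, h2, k2, k1⟩).1
  · rw [hαe, ← ha, ← hb]
    have hn4z : (4 : ℤ) ≤ n := by exact_mod_cast hn4
    have : (4 * Y.a : ℤ) ≤ Y.A1 + 3 * Y.b := by
      rw [hA1]
      nlinarith
    exact_mod_cast this
  · intro g' hg'
    rw [hαe, ← ha, ← he]
    have e2 : al X.cs i j 2 = X.cs.simple i * X.cs.simple j := by
      show X.cs.simple i * (X.cs.simple j * 1) = _
      rw [mul_one]
    have e2' : al X.cs j i 2 = X.cs.simple j * X.cs.simple i := by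
      show X.cs.simple j * (X.cs.simple i * 1) = _
      rw [mul_one]
    have e3' : al X.cs j i 3 = X.cs.simple j * X.cs.simple i * X.cs.simple j := by
      show X.cs.simple j * (X.cs.simple i * (X.cs.simple j * 1)) = _
      rw [mul_one, mul_assoc]
    rcases hg' with rfl | rfl | rfl
    · rw [← e2, ← hp, hr]
      exact c1
    · rw [← e2', ← hq, hr]
      exact c2
    · rw [← e3', ← hq, hr]
      exact c3
  · rw [hαe, ← ha, ← hb, ← he]
    have e3 : al X.cs i j 3 = X.cs.simple i * X.cs.simple j * X.cs.simple i := by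
      show X.cs.simple i * (X.cs.simple j * (X.cs.simple i * 1)) = _
      rw [mul_one, mul_assoc]
    rw [← e3, ← hp, hr]
    exact c4

end Pool.Agent.Helper44.LE.DI2
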